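import Pool.Agent.Q131.FlipLower

/-!
# The growth constant of three-colour flip sequences is `5/4`

Upper bound: sum `2 e_1 > e_2 + e_3` over all vertices and count triangles; Goodman's inequality in
the colour-1 neighbourhoods.  Lower bound: blow-up of a lamplighter graph.
-/

namespace Pool.Agent.Results.MP_56a9b7_co.FiveQuarters

open Q131.Flip

/-- The set whose supremum is `c^*`. -/
def CSet : Set ℝ :=
  {c : ℝ | {a : Fin 3 → ℕ | IsFlipSequence a ∧ c * (a 0 : ℝ) ^ 2 ≤ (a 2 : ℝ)}.Infinite}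

theorem mem_of_lt {c : ℝ} (hc : c < 5 / 4) : c ∈ CSet := by
  obtain ⟨q, hq⟩ := exists_nat_gt (1 / (5 / 4 - c))
  have hpos : (0 : ℝ) < 5 / 4 - c := by linarith
  have hq0 : (0 : ℝ) < q := lt_trans (by positivity) hq
  have hq1 : 1 ≤ q := by
    have : 0 < q := by exact_mod_cast hq0
    omega
  have hq1' : (1 : ℝ) ≤ q := by exact_mod_cast hq1
  have hcq : 1 ≤ q * (5 / 4 - c) := by
    rw [div_lt_iff₀ hpos] at hq
    exact hq.le
  -- the ratio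
  have hratio : c * (2 * (q : ℝ) + 1) ^ 2 ≤ 5 * q ^ 2 + 4 * q := by
    obtain ⟨t, ht⟩ : ∃ t : ℝ, t = 1 / q := ⟨_, rfl⟩
    have htq : t * q = 1 := by rw [ht]; field_simp
    have ht0 : 0 < t := by rw [ht]; positivity
    have hct : c ≤ 5 / 4 - t := by
      have h1 : t * 1 ≤ t * (q * (5 / 4 - c)) := mul_le_mul_of_nonneg_left hcq ht0.le
      have h2 : t * (q * (5 / 4 - c)) = 5 / 4 - c := by rw [← mul_assoc, htq, one_mul]
      linarith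
    have h3 : c * (2 * (q : ℝ) + 1) ^ 2 ≤ (5 / 4 - t) * (2 * (q : ℝ) + 1) ^ 2 :=
      mul_le_mul_of_nonneg_right hct (by positivity)
    have h4 : (5 / 4 - t) * (2 * (q : ℝ) + 1) ^ 2 =
        5 * q ^ 2 + 5 * q + 5 / 4 - 4 * (t * q) * q - 4 * (t * q) - t := by ring
    rw [h4, htq] at h3
    linarith
  -- infinitely many sequences
  let m₀ : ℕ := 2 * q ^ 3 + 8 * q ^ 2 + 6 * q + 2
  let F : ℕ → (Fin 3 → ℕ) := fun i => ![(2 * q + 1) * (m₀ + i) - 1,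
    (2 * q ^ 3 + 6 * q ^ 2 + 4 * q) * (m₀ + i),
    2 * q ^ 2 * (m₀ + i) + ((m₀ + i) ^ 2 * (5 * q ^ 2 + 4 * q) - 1)]
  have hF : Function.Injective F := by
    intro i j hij
    have h1 : (2 * q ^ 3 + 6 * q ^ 2 + 4 * q) * (m₀ + i) =
        (2 * q ^ 3 + 6 * q ^ 2 + 4 * q) * (m₀ + j) := congrFun hij 1
    have h2 : 0 < 2 * q ^ 3 + 6 * q ^ 2 + 4 * q := by positivity
    have h3 := Nat.eq_of_mul_eq_mul_left h2 h1
    omega
  apply Set.Infinite.mono _ (Set.infinite_range_of_injective hF)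
  rintro _ ⟨i, rfl⟩
  refine ⟨lower_seq q (m₀ + i) hq1 (by omega), ?_⟩
  obtain ⟨m, hm⟩ : ∃ m, m = m₀ + i := ⟨_, rfl⟩
  have hm1 : 1 ≤ m := by
    have : 2 ≤ m₀ := by
      show 2 ≤ 2 * q ^ 3 + 8 * q ^ 2 + 6 * q + 2
      omega
    omega
  show c * (((2 * q + 1) * (m₀ + i) - 1 : ℕ) : ℝ) ^ 2 ≤
    ((2 * q ^ 2 * (m₀ + i) + ((m₀ + i) ^ 2 * (5 * q ^ 2 + 4 * q) - 1) : ℕ) : ℝ)
  rw [← hm]
  have hb : 1 ≤ m ^ 2 * (5 * q ^ 2 + 4 * q) := by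
    apply Nat.one_le_iff_ne_zero.2
    positivity
  have ha : 1 ≤ (2 * q + 1) * m := by
    apply Nat.one_le_iff_ne_zero.2
    positivity
  have c0 : (((2 * q + 1) * m - 1 : ℕ) : ℝ) = (2 * q + 1) * m - 1 := by
    push_cast [Nat.cast_sub ha]
    ring
  have c2 : ((2 * q ^ 2 * m + (m ^ 2 * (5 * q ^ 2 + 4 * q) - 1) : ℕ) : ℝ) =
      2 * q ^ 2 * m + (m ^ 2 * (5 * q ^ 2 + 4 * q) - 1) := by
    push_cast [Nat.cast_sub hb]
    ring
  rw [c2]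
  have hm1' : (1 : ℝ) ≤ m := by exact_mod_cast hm1
  have h5 : (1 : ℝ) ≤ 2 * q ^ 2 * m := by nlinarith
  rcases le_or_gt c 0 with h0 | h0
  · have h1 : c * (((2 * q + 1) * m - 1 : ℕ) : ℝ) ^ 2 ≤ 0 :=
      mul_nonpos_of_nonpos_of_nonneg h0 (sq_nonneg _)
    have h2 : (0 : ℝ) ≤ m ^ 2 * (5 * q ^ 2 + 4 * q) := by positivity
    linarith
  · have h1 : (((2 * q + 1) * m - 1 : ℕ) : ℝ) ^ 2 ≤ ((2 * q + 1) * m) ^ 2 := by
      apply pow_le_pow_left₀ (Nat.cast_nonneg _)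
      rw [c0]
      linarith
    have h2 : c * (((2 * q + 1) * m - 1 : ℕ) : ℝ) ^ 2 ≤ c * ((2 * q + 1) * m) ^ 2 :=
      mul_le_mul_of_nonneg_left h1 h0.le
    have h3 : c * ((2 * (q : ℝ) + 1) * m) ^ 2 ≤ (5 * q ^ 2 + 4 * q) * m ^ 2 := by
      calc c * ((2 * (q : ℝ) + 1) * m) ^ 2 = c * (2 * (q : ℝ) + 1) ^ 2 * m ^ 2 := by ring
        _ ≤ _ := mul_le_mul_of_nonneg_right hratio (sq_nonneg _)
    linarith

theorem lt_of_mem {c : ℝ} (hc : c ∈ CSet) : c < 5 / 4 := by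
  obtain ⟨a, ha, h⟩ := Set.Infinite.nonempty hc
  have h1 := upper ha
  have h0 : (0 : ℝ) < a 0 := by exact_mod_cast ha.2.1 0
  have h2 : c * (a 0 : ℝ) ^ 2 < 5 / 4 * (a 0 : ℝ) ^ 2 := by linarith
  exact lt_of_mul_lt_mul_right h2 (by positivity)

/-- Every three-colour flip sequence satisfies `4 a_3 ≤ 5 a_1 ^ 2 - 16`; for every `c < 5/4` there
are infinitely many three-colour flip sequences with `a_3 ≥ c a_1 ^ 2`; hence `c^* = 5/4`. -/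
theorem result :
    (∀ a : Fin 3 → ℕ, IsFlipSequence a → 4 * (a 2 : ℝ) ≤ 5 * (a 0 : ℝ) ^ 2 - 16) ∧
    (∀ c : ℝ, {a : Fin 3 → ℕ | IsFlipSequence a ∧ c * (a 0 : ℝ) ^ 2 ≤ (a 2 : ℝ)}.Infinite ↔
      c < 5 / 4) ∧
    cStar = 5 / 4 := by
  refine ⟨fun a ha => upper ha, fun c => ⟨fun h => lt_of_mem h, fun h => mem_of_lt h⟩, ?_⟩
  have hS : CSet = Set.Iio (5 / 4 : ℝ) :=
    Set.ext fun c => ⟨fun h => lt_of_mem h, fun h => mem_of_lt h⟩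
  show sSup CSet = 5 / 4
  rw [hS]
  exact csSup_Iio

end Pool.Agent.Results.MP_56a9b7_co.FiveQuarters
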